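import Pool.Agent.Helper22.CG.C7

/-!
# Multivariate cogrowth: maximal cogrowth forces equality in every direction
-/

set_option autoImplicit false

open Filter

open scoped ENNReal

namespace Pool.Agent.Results.MP_dc78ae_al.MultivariateCogrowth

/-- `℘_i(w)`: the number of letters of the reduced word of `w` equal to `a_i` or `a_i⁻¹`. -/
def wp {m : ℕ} (w : FreeGroup (Fin m)) (i : Fin m) : ℕ :=
  w.toWord.countP (fun x => x.1 = i)

/-- The counting measure `ν_H` of a set `S ⊆ ℝ^m`: the number (possibly infinite) of `w ∈ H` with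
`℘(w) ∈ S`. -/
noncomputable def nu {m : ℕ} (H : Subgroup (FreeGroup (Fin m))) (S : Set (Fin m → ℝ)) : ℝ≥0∞ :=
  ((({w | w ∈ H ∧ (fun i => (wp w i : ℝ)) ∈ S} : Set (FreeGroup (Fin m))).encard : ℕ∞) : ℝ≥0∞)

/-- The `ℓ¹` norm on `ℝ^m`. -/
def l1 {m : ℕ} (x : Fin m → ℝ) : ℝ := ∑ i, |x i|

/-- `τ_{H,C} = limsup_{R → ∞} (1/R) log ν_H({R ≤ ‖x‖ < R + 1} ∩ C)`, with `log 0 = -∞`. -/
noncomputable def tau {m : ℕ} (H : Subgroup (FreeGroup (Fin m))) (C : Set (Fin m → ℝ)) : EReal :=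
  limsup (fun R : ℝ => ENNReal.log (nu H ({x | R ≤ l1 x ∧ l1 x < R + 1} ∩ C)) / (R : EReal)) atTop

/-- Open cones in `ℝ^m`. -/
def IsOpenCone {m : ℕ} (C : Set (Fin m → ℝ)) : Prop :=
  IsOpen C ∧ ∀ x ∈ C, ∀ t : ℝ, 0 < t → t • x ∈ C

/-- The multivariate (co)growth `ψ_H(r)`: the infimum of `τ_{H,C}` over all open cones `C`
containing `r`. -/
noncomputable def psi {m : ℕ} (H : Subgroup (FreeGroup (Fin m))) (r : Fin m → ℝ) : EReal :=
  ⨅ (C : Set (Fin m → ℝ)) (_ : IsOpenCone C ∧ r ∈ C), tau H C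

/-- The simplex `M_m`. -/
def M (m : ℕ) : Set (Fin m → ℝ) := {r | (∀ i, 0 ≤ r i) ∧ ∑ i, r i = 1}

/-- (Q1) If `N` is normal in `F_m`, `m ≥ 2`, and the maximum of `ψ_N` on the simplex is
`log (2m - 1)`, then `ψ_N = ψ_{F_m}` on the whole simplex.
(Q2) For every `m ≥ 2` (in particular `m = 2`), `ψ_N = ψ_{F_m}` on the simplex for
`N = [F_m, F_m]`. -/
theorem result :
    (∀ m : ℕ, 2 ≤ m → ∀ N : Subgroup (FreeGroup (Fin m)), N.Normal →
      IsGreatest (psi N '' M m) ((Real.log (2 * m - 1) : ℝ) : EReal) →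
      ∀ r ∈ M m, psi N r = psi (⊤ : Subgroup (FreeGroup (Fin m))) r) ∧
    (∀ m : ℕ, 2 ≤ m → ∀ r ∈ M m,
      psi (commutator (FreeGroup (Fin m))) r = psi (⊤ : Subgroup (FreeGroup (Fin m))) r) := by
  refine ⟨?_, ?_⟩
  · rintro m hm N hN ⟨⟨r0, _, hr0⟩, _⟩ r hr
    exact Pool.Agent.Helper22.CG.q1 hm N hN r0 hr0 r hr
  · intro m hm r hr
    exact Pool.Agent.Helper22.CG.q2 hm r hr

end Pool.Agent.Results.MP_dc78ae_al.MultivariateCogrowth
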